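import Pool.Agent.H72.CH.Targets2

/-!
Gluing of names along a finite oriented graph.
-/

set_option autoImplicit false
set_option linter.unusedVariables false

namespace Pool.Agent.H65.CHN

open Pool.Agent.H72.CH
open Pool.Agent.H35.FB (PP)
open Pool.Agent.H44.KR (TpOn)
open Function

section names

variable {N : Type} {k : ℕ}

/-- new names -/
abbrev Nam (N : Type) (k : ℕ) : Type := N ⊕ ((Fin k × (Fin 3 → N)) ⊕ (Fin k × Fin k × (PP → N)))

open Classical in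
/-- the name of a vertex profile -/
noncomputable def vn (h : Fin k) (τ : Fin 3 → N) : Nam N k :=
  if ∃ ν, τ = fun _ => ν then Sum.inl (τ 0) else Sum.inr (Sum.inl (h, τ))

open Classical in
/-- the name of a profile -/
noncomputable def th (TT : Set (Fin 3 → N)) (g g' : Fin k) (π : PP → N) : Nam N k :=
  if h : ∃ τ, τ ∈ TT ∧ π = lfP τ then vn g h.choose
  else if h : ∃ τ, τ ∈ TT ∧ π = rtP τ then vn g' h.choose
  else Sum.inr (Sum.inr (g, g', π))

/-- the profile of a vertex profile at a vertex of the edge with the left end `g` -/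
def sd (g h : Fin k) (τ : Fin 3 → N) : PP → N := if h = g then lfP τ else rtP τ

theorem vn_inj {h h' : Fin k} {τ τ' : Fin 3 → N} (e : vn h τ = vn h' τ') :
    τ = τ' ∧ (h = h' ∨ ∃ ν, τ = fun _ => ν) := by
  classical
  unfold vn at e
  by_cases h1 : ∃ ν, τ = fun _ => ν
  · by_cases h2 : ∃ ν, τ' = fun _ => ν
    · rw [if_pos h1, if_pos h2] at e
      have e1 := Sum.inl.inj e
      obtain ⟨ν, rfl⟩ := h1
      obtain ⟨ν', rfl⟩ := h2
      have e2 : ν = ν' := e1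
      subst e2
      exact ⟨rfl, Or.inr ⟨ν, rfl⟩⟩
    · rw [if_pos h1, if_neg h2] at e
      cases e
  · by_cases h2 : ∃ ν, τ' = fun _ => ν
    · rw [if_neg h1, if_pos h2] at e
      cases e
    · rw [if_neg h1, if_neg h2] at e
      have e1 := Sum.inl.inj (Sum.inr.inj e)
      exact ⟨congrArg Prod.snd e1, Or.inl (congrArg Prod.fst e1)⟩

theorem vn_const (h h' : Fin k) (ν : N) : vn h (fun _ => ν) = vn h' (fun _ => ν) := by
  classical
  unfold vn
  rw [if_pos ⟨ν, rfl⟩, if_pos ⟨ν, rfl⟩]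

theorem vn_ne (h : Fin k) (τ : Fin 3 → N) (q : Fin k × Fin k × (PP → N)) :
    vn h τ ≠ Sum.inr (Sum.inr q) := by
  classical
  unfold vn
  by_cases h1 : ∃ ν, τ = fun _ => ν
  · rw [if_pos h1]
    intro e
    cases e
  · rw [if_neg h1]
    intro e
    cases e

theorem lfP_inj {τ τ' : Fin 3 → N} (e : lfP τ = lfP τ') : τ = τ' := by
  funext a
  have h0 : ∀ a : Fin 3, ∃ b : Fin 3, a ≠ b := by decide
  obtain ⟨b, hb⟩ := h0 a
  exact congrFun e ⟨(a, b), hb⟩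

theorem rtP_inj {τ τ' : Fin 3 → N} (e : rtP τ = rtP τ') : τ = τ' := by
  funext a
  have h0 : ∀ a : Fin 3, ∃ b : Fin 3, b ≠ a := by decide
  obtain ⟨b, hb⟩ := h0 a
  exact congrFun e ⟨(b, a), hb⟩

theorem lf_rt {τ τ' : Fin 3 → N} (e : lfP τ = rtP τ') :
    τ = τ' ∧ ∃ ν, τ = fun _ => ν := by
  have h : ∀ a b : Fin 3, a ≠ b → τ a = τ' b := fun a b hab => congrFun e ⟨(a, b), hab⟩
  have h01 := h 0 1 (by decide)
  have h02 := h 0 2 (by decide)
  have h10 := h 1 0 (by decide)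
  have h12 := h 1 2 (by decide)
  have h20 := h 2 0 (by decide)
  have h21 := h 2 1 (by decide)
  have e1 : τ 1 = τ 0 := by rw [h12, ← h02]
  have e2 : τ 2 = τ 0 := by rw [h21, ← h01]
  have hc : τ = fun _ => τ 0 := by
    funext a
    fin_cases a
    · rfl
    · exact e1
    · exact e2
  refine ⟨?_, τ 0, hc⟩
  funext a
  fin_cases a
  · show τ 0 = τ' 0
    rw [← h10, e1]
  · show τ 1 = τ' 1
    rw [← h01, e1]
  · show τ 2 = τ' 2
    rw [← h02, e2]

theorem lf_const (ν : N) : lfP (fun _ => ν) = rtP (fun _ => ν) := rfl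

theorem th_lf (TT : Set (Fin 3 → N)) (g g' : Fin k) {τ : Fin 3 → N} (hτ : τ ∈ TT) :
    th TT g g' (lfP τ) = vn g τ := by
  classical
  have h : ∃ τ', τ' ∈ TT ∧ lfP τ = lfP τ' := ⟨τ, hτ, rfl⟩
  unfold th
  rw [dif_pos h, ← lfP_inj h.choose_spec.2]

theorem th_rt (TT : Set (Fin 3 → N)) (g g' : Fin k) {τ : Fin 3 → N} (hτ : τ ∈ TT) :
    th TT g g' (rtP τ) = vn g' τ := by
  classical
  unfold th
  by_cases h : ∃ τ', τ' ∈ TT ∧ rtP τ = lfP τ'
  · rw [dif_pos h]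
    obtain ⟨e1, ν, e2⟩ := lf_rt h.choose_spec.2.symm
    have e3 : τ = fun _ => ν := e1.symm.trans e2
    rw [e2]
    conv_rhs => rw [e3]
    exact vn_const _ _ _
  · rw [dif_neg h]
    have h2 : ∃ τ', τ' ∈ TT ∧ rtP τ = rtP τ' := ⟨τ, hτ, rfl⟩
    rw [dif_pos h2, ← rtP_inj h2.choose_spec.2]

theorem th_cases (TT : Set (Fin 3 → N)) (g g' : Fin k) (π : PP → N) :
    (∃ τ ∈ TT, π = lfP τ) ∨ (∃ τ ∈ TT, π = rtP τ) ∨
      th TT g g' π = Sum.inr (Sum.inr (g, g', π)) := by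
  classical
  by_cases h : ∃ τ, τ ∈ TT ∧ π = lfP τ
  · exact Or.inl h
  · by_cases h2 : ∃ τ, τ ∈ TT ∧ π = rtP τ
    · exact Or.inr (Or.inl h2)
    · refine Or.inr (Or.inr ?_)
      unfold th
      rw [dif_neg h, dif_neg h2]

/-- names of profiles of vertices -/
theorem th_sd (TT : Set (Fin 3 → N)) {g g' h : Fin k} (hgg : g ≠ g') (hh : h = g ∨ h = g')
    {τ : Fin 3 → N} (hτ : τ ∈ TT) : th TT g g' (sd g h τ) = vn h τ := by
  unfold sd
  rcases hh with rfl | rfl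
  · rw [if_pos rfl]
    exact th_lf TT h g' hτ
  · rw [if_neg hgg.symm]
    exact th_rt TT g h hτ

/-- a profile is a vertex profile or it has its own name -/
theorem th_cases2 (TT : Set (Fin 3 → N)) {g g' : Fin k} (hgg : g ≠ g') (π : PP → N) :
    (∃ τ ∈ TT, ∃ h, (h = g ∨ h = g') ∧ π = sd g h τ) ∨
      th TT g g' π = Sum.inr (Sum.inr (g, g', π)) := by
  rcases th_cases TT g g' π with ⟨τ, hτ, h⟩ | ⟨τ, hτ, h⟩ | h
  · refine Or.inl ⟨τ, hτ, g, Or.inl rfl, ?_⟩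
    unfold sd
    rw [if_pos rfl]
    exact h
  · refine Or.inl ⟨τ, hτ, g', Or.inr rfl, ?_⟩
    unfold sd
    rw [if_neg hgg.symm]
    exact h
  · exact Or.inr h

theorem sd_const (g h : Fin k) (ν : N) : sd g h (fun _ => ν) = fun _ => ν := by
  unfold sd
  split <;> rfl

/-- equal names -/
theorem th_eq (TT : Set (Fin 3 → N)) {g g' g₁ g₁' : Fin k} (hgg : g ≠ g') (hgg₁ : g₁ ≠ g₁')
    {π π₁ : PP → N} (e : th TT g g' π = th TT g₁ g₁' π₁) :
    (∃ τ ∈ TT, ∃ h h₁, (h = g ∨ h = g') ∧ (h₁ = g₁ ∨ h₁ = g₁') ∧ π = sd g h τ ∧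
      π₁ = sd g₁ h₁ τ ∧ (h = h₁ ∨ ∃ ν, τ = fun _ => ν)) ∨ (g = g₁ ∧ g' = g₁' ∧ π = π₁) := by
  rcases th_cases2 TT hgg π with ⟨τ, hτ, h, hh, hπ⟩ | hπ
  · rcases th_cases2 TT hgg₁ π₁ with ⟨τ₁, hτ₁, h₁, hh₁, hπ₁⟩ | hπ₁
    · rw [hπ, hπ₁, th_sd TT hgg hh hτ, th_sd TT hgg₁ hh₁ hτ₁] at e
      obtain ⟨e1, e2⟩ := vn_inj e
      subst e1
      exact Or.inl ⟨τ, hτ, h, h₁, hh, hh₁, hπ, hπ₁, e2⟩
    · rw [hπ, th_sd TT hgg hh hτ, hπ₁] at e
      exact absurd e (vn_ne _ _ _)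
  · rcases th_cases2 TT hgg₁ π₁ with ⟨τ₁, hτ₁, h₁, hh₁, hπ₁⟩ | hπ₁
    · rw [hπ₁, th_sd TT hgg₁ hh₁ hτ₁, hπ] at e
      exact absurd e.symm (vn_ne _ _ _)
    · rw [hπ, hπ₁] at e
      have e1 := Sum.inr.inj (Sum.inr.inj e)
      have e2 := congrArg Prod.fst e1
      have e3 := congrArg Prod.snd e1
      exact Or.inr ⟨e2, congrArg Prod.fst e3, congrArg Prod.snd e3⟩

theorem th_inj (TT : Set (Fin 3 → N)) {g g' : Fin k} (hgg : g ≠ g') {π π₁ : PP → N}
    (e : th TT g g' π = th TT g g' π₁) : π = π₁ := by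
  rcases th_eq TT hgg hgg e with ⟨τ, _, h, h₁, _, _, hπ, hπ₁, h2⟩ | h
  · rcases h2 with rfl | ⟨ν, rfl⟩
    · rw [hπ, hπ₁]
    · rw [hπ, hπ₁, sd_const, sd_const]
  · exact h.2.2

theorem sd_val (g h : Fin k) (τ : Fin 3 → N) (a : Fin 3) : ∃ p : PP, sd g h τ p = τ a := by
  have h0 : ∀ a : Fin 3, ∃ b : Fin 3, a ≠ b := by decide
  obtain ⟨b, hb⟩ := h0 a
  unfold sd
  split
  · exact ⟨⟨(a, b), hb⟩, rfl⟩
  · exact ⟨⟨(b, a), hb.symm⟩, rfl⟩

theorem sd_mem (g h : Fin k) (τ : Fin 3 → N) (p : PP) : ∃ a : Fin 3, sd g h τ p = τ a := by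
  unfold sd
  split
  · exact ⟨p.1.1, rfl⟩
  · exact ⟨p.1.2, rfl⟩

end names

theorem pf_GLN : T_GLN := by
  classical
  intro V N ρ δ 𝔹 m lv 𝔻 st β hHV hNm hNex k A hA PS TT dum hPS hTT hdum val X hval hX hXc Λ S hex
  have hne : ∀ g g', A g g' → g ≠ g' := fun g g' h he => by
    subst he
    exact hA g g h h
  have hul := hHV.lev.pl.ult
  -- vertex flags
  have hsdv : ∀ g g' h, A g g' → (h = g ∨ h = g') → ∀ τ : Fin m → Fin 3 → N,
      (∀ i, τ i ∈ TT ∧ ∀ a, st (τ i a) = i) →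
      FP st PS (fun i => sd g h (τ i)) ∧ val g g' (fun i => sd g h (τ i)) = X h τ := by
    intro g g' h hgg hh τ hτ
    refine ⟨fun i => ⟨?_, fun p => ?_⟩, ?_⟩
    · show sd g h (τ i) ∈ PS
      unfold sd
      split
      · exact (hTT _ (hτ i).1).1
      · exact (hTT _ (hτ i).1).2
    · show st (sd g h (τ i) p) = i
      obtain ⟨a, ha⟩ := sd_mem g h (τ i) p
      rw [ha]
      exact (hτ i).2 a
    · rcases hh with rfl | rfl
      · have e : (fun i => sd h h (τ i)) = fun i => lfP (τ i) := by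
          funext i
          unfold sd
          rw [if_pos rfl]
        rw [e]
        exact (hX h g' hgg τ hτ).1
      · have e : (fun i => sd g h (τ i)) = fun i => rtP (τ i) := by
          funext i
          unfold sd
          rw [if_neg (hne g h hgg).symm]
        rw [e]
        exact (hX g h hgg τ hτ).2
  -- key lemma
  have key : ∀ g g' g₁ g₁', A g g' → A g₁ g₁' → ∀ w w₁, FP st PS w → FP st PS w₁ →
      ∀ j ≤ m, (∀ i : Fin m, (i : ℕ) < j → th TT g g' (w i) = th TT g₁ g₁' (w₁ i)) →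
      j ≤ lv (val g g' w) (val g₁ g₁' w₁) := by
    intro g g' g₁ g₁' hgg hgg₁ w w₁ hw hw₁ j hj hag
    by_cases he : g = g₁ ∧ g' = g₁'
    · obtain ⟨rfl, rfl⟩ := he
      exact hval g g' hgg w w₁ hw hw₁ j hj fun i hi => th_inj TT (hne _ _ hgg) (hag i hi)
    · -- the vertex profiles
      have h1 : ∀ i : Fin m, ∃ (τ : Fin 3 → N) (h h₁ : Fin k), τ ∈ TT ∧ (∀ a, st (τ a) = i) ∧
          ((i : ℕ) < j → (h = g ∨ h = g') ∧ (h₁ = g₁ ∨ h₁ = g₁') ∧ w i = sd g h τ ∧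
            w₁ i = sd g₁ h₁ τ) ∧ (((i : ℕ) < j ∧ h = h₁) ∨ ∃ ν, τ = fun _ => ν) := by
        intro i
        by_cases hi : (i : ℕ) < j
        · rcases th_eq TT (hne _ _ hgg) (hne _ _ hgg₁) (hag i hi) with
            ⟨τ, hτ, h, h₁, hh, hh₁, e1, e2, e3⟩ | ⟨e1, e2, -⟩
          · refine ⟨τ, h, h₁, hτ, fun a => ?_, fun _ => ⟨hh, hh₁, e1, e2⟩,
              e3.imp (fun e => ⟨hi, e⟩) id⟩
            obtain ⟨p, hp⟩ := sd_val g h τ a
            rw [← hp, ← e1]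
            exact (hw i).2 p
          · exact absurd ⟨e1, e2⟩ he
        · exact ⟨fun _ => dum i, g, g, (hdum i).2, fun _ => (hdum i).1, fun h => absurd h hi,
            Or.inr ⟨_, rfl⟩⟩
      choose τ hi₀ hi₁ hτT hτs hτw hτc using h1
      have hτ : ∀ i, τ i ∈ TT ∧ ∀ a, st (τ i a) = i := fun i => ⟨hτT i, hτs i⟩
      -- the vertices
      have h2 : ∃ h h₁ : Fin k, (h = g ∨ h = g') ∧ (h₁ = g₁ ∨ h₁ = g₁') ∧ X h τ = X h₁ τ ∧
          ∀ i : Fin m, (i : ℕ) < j → w i = sd g h (τ i) ∧ w₁ i = sd g₁ h₁ (τ i) := by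
        by_cases hc : ∃ h, (h = g ∨ h = g') ∧ (h = g₁ ∨ h = g₁')
        · obtain ⟨h, hh, hh₁⟩ := hc
          refine ⟨h, h, hh, hh₁, rfl, fun i hi => ?_⟩
          obtain ⟨e1, e2, e3, e4⟩ := hτw i hi
          rcases hτc i with ⟨-, e5⟩ | ⟨ν, e5⟩
          · -- the common vertex is unique
            have e6 : hi₀ i = h := by
              rw [← e5] at e2
              by_contra hne2
              generalize hi₀ i = v at e1 e2 hne2
              -- two common vertices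
              rcases hh with rfl | rfl
              · rcases e1 with rfl | rfl
                · exact hne2 rfl
                · rcases hh₁ with rfl | rfl
                  · rcases e2 with rfl | rfl
                    · exact hne2 rfl
                    · exact he ⟨rfl, rfl⟩
                  · rcases e2 with rfl | rfl
                    · exact hA _ _ hgg hgg₁
                    · exact hne2 rfl
              · rcases e1 with rfl | rfl
                · rcases hh₁ with rfl | rfl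
                  · rcases e2 with rfl | rfl
                    · exact hne2 rfl
                    · exact hA _ _ hgg hgg₁
                  · rcases e2 with rfl | rfl
                    · exact he ⟨rfl, rfl⟩
                    · exact hne2 rfl
                · exact hne2 rfl
            rw [e3, e4, ← e5, e6]
            exact ⟨rfl, rfl⟩
          · rw [e3, e4, e5, sd_const, sd_const, sd_const, sd_const]
            exact ⟨rfl, rfl⟩
        · have hcst : ∀ i, ∃ ν, τ i = fun _ => ν := by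
            intro i
            rcases hτc i with ⟨hi, e5⟩ | e5
            · obtain ⟨e1, e2, -, -⟩ := hτw i hi
              rw [← e5] at e2
              exact absurd ⟨_, e1, e2⟩ hc
            · exact e5
          choose ν hν using hcst
          have hτν : τ = fun i _ => ν i := by
            funext i
            exact hν i
          refine ⟨g, g₁, Or.inl rfl, Or.inl rfl, ?_, fun i hi => ?_⟩
          · rw [hτν]
            refine hXc g g' g₁ g₁' hgg hgg₁ ν fun i => ⟨?_, ?_⟩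
            · rw [← hν i]
              exact hτT i
            · have := hτs i 0
              rw [hν i] at this
              exact this
          · obtain ⟨-, -, e3, e4⟩ := hτw i hi
            rw [e3, e4, hν i, sd_const, sd_const, sd_const, sd_const]
            exact ⟨rfl, rfl⟩
      obtain ⟨h, h₁, hh, hh₁, hXX, hag2⟩ := h2
      obtain ⟨f1, f2⟩ := hsdv g g' h hgg hh τ hτ
      obtain ⟨f3, f4⟩ := hsdv g₁ g₁' h₁ hgg₁ hh₁ τ hτ
      have k1 := hval g g' hgg w _ hw f1 j hj fun i hi => (hag2 i hi).1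
      have k2 := hval g₁ g₁' hgg₁ _ w₁ f3 hw₁ j hj fun i hi => (hag2 i hi).2.symm
      rw [f2] at k1
      rw [f4, ← hXX] at k2
      exact (le_min k1 k2).trans (hul _ _ _)
  -- the set of names
  set Ws : Set (Nam N k) := {n | ∃ (g g' : Fin k) (π : PP → N), A g g' ∧ π ∈ PS ∧
    (∃ i, ∀ p, st (π p) = i) ∧ n = th TT g g' π} with hWs
  have hWfin : Finite Ws := by
    have h1 : Ws ⊆ (fun q : Fin k × Fin k × (PP → N) => th TT q.1 q.2.1 q.2.2) ''
        (Set.univ ×ˢ (Set.univ ×ˢ PS)) := by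
      rintro n ⟨g, g', π, -, hπ, -, rfl⟩
      exact ⟨(g, g', π), ⟨trivial, trivial, hπ⟩, rfl⟩
    exact ((Set.finite_univ.prod (Set.finite_univ.prod hPS)).image _).subset h1
  -- sorts
  have hsort : ∀ n : Ws, ∃ i : Fin m, ∀ g g' π, A g g' → n.1 = th TT g g' π →
      ∀ p, st (π p) = i := by
    rintro ⟨n, g₀, g₀', π₀, hA₀, hπ₀, ⟨i, hi⟩, hn⟩
    refine ⟨i, fun g g' π hgg hn2 p => ?_⟩
    have e : th TT g₀ g₀' π₀ = th TT g g' π := hn.symm.trans hn2
    rcases th_eq TT (hne _ _ hA₀) (hne _ _ hgg) e with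
      ⟨τ, -, h, h₁, -, -, e1, e2, -⟩ | ⟨-, -, e3⟩
    · obtain ⟨a, ha⟩ := sd_mem g h₁ τ p
      obtain ⟨p', hp'⟩ := sd_val g₀ h τ a
      rw [e2, ha, ← hp', ← e1]
      exact hi p'
    · rw [← e3]
      exact hi p
  choose s hs using hsort
  -- values
  have hrep : ∀ u : Fl s, ∃ v : V, ∀ g g' w, A g g' → FP st PS w →
      (∀ i, (u.1 i).1 = th TT g g' (w i)) → v = val g g' w := by
    intro u
    by_cases hu : ∃ g g' w, A g g' ∧ FP st PS w ∧ ∀ i, (u.1 i).1 = th TT g g' (w i)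
    · obtain ⟨g, g', w, h1, h2, h3⟩ := hu
      refine ⟨val g g' w, fun g₁ g₁' w₁ h1' h2' h3' => ?_⟩
      refine hHV.lev.eq _ _ (le_antisymm (hHV.lev.pl.le _ _) ?_)
      exact key g g' g₁ g₁' h1 h1' w w₁ h2 h2' m le_rfl fun i _ => (h3 i).symm.trans (h3' i)
    · exact ⟨Classical.choice hHV.ne, fun g g' w h1 h2 h3 => absurd ⟨g, g', w, h1, h2, h3⟩ hu⟩
  choose g₀ hg₀ using hrep
  set Xs : Set (Fl s) := {u | ∃ g g' w, A g g' ∧ FP st PS w ∧
    ∀ i, (u.1 i).1 = th TT g g' (w i)} with hXs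
  set C : Λ × Fin k × Fin k → Set (Fl s) := fun q => {u | A q.2.1 q.2.2 ∧ ∃ w, FP st PS w ∧
    (∀ i, w i ∈ S q.1) ∧ ∀ i, (u.1 i).1 = th TT q.2.1 q.2.2 (w i)} with hC
  obtain ⟨x₀, hx1, hx2, hx3⟩ := hNex Ws s Xs g₀ (Λ × Fin k × Fin k) C (by
    rintro u ⟨g, g', w, h1, h2, h3⟩ u' ⟨g₁, g₁', w₁, h1', h2', h3'⟩ j hj hag
    rw [hg₀ u g g' w h1 h2 h3, hg₀ u' g₁ g₁' w₁ h1' h2' h3']
    refine key g g' g₁ g₁' h1 h1' w w₁ h2 h2' j hj fun i hi => ?_
    rw [← h3 i, ← h3' i, hag i hi]) (by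
    rintro ⟨a, g, g'⟩ u ⟨h1, w, h2, -, h3⟩
    exact ⟨g, g', w, h1, h2, h3⟩) (by
    rintro ⟨a, g, g'⟩ u ⟨h1, w, h2, h4, h3⟩ u' ⟨-, w₁, h2', h4', h3'⟩ j hj hle
    rw [hg₀ u g g' w h1 h2 h3, hg₀ u' g g' w₁ h1 h2' h3'] at hle
    have h5 := hex a g g' h1 w w₁ h2 h2' (fun i => ⟨h4 i, h4' i⟩) j hj hle
    intro i hi
    apply Subtype.ext
    rw [h3 i, h3' i, h5 i hi])
  have hN : Nonempty N := hNm.hb.ne
  set X₀ : Nam N k → N := fun n => if h : n ∈ Ws then x₀ ⟨n, h⟩ else Classical.choice hN with hX₀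
  have hX₀v : ∀ (n : Nam N k) (h : n ∈ Ws), X₀ n = x₀ ⟨n, h⟩ := by
    intro n h
    simp only [hX₀]
    rw [dif_pos h]
  have hmem : ∀ g g' π, A g g' → π ∈ PS → (∃ i, ∀ p, st (π p) = i) → th TT g g' π ∈ Ws :=
    fun g g' π h1 h2 h3 => ⟨g, g', π, h1, h2, h3, rfl⟩
  have p₀ : PP := ⟨(0, 1), by decide⟩
  have hss : ∀ g g' π (h1 : A g g') (h2 : π ∈ PS) (i : Fin m) (h3 : ∀ p, st (π p) = i),
      s ⟨th TT g g' π, hmem g g' π h1 h2 ⟨i, h3⟩⟩ = i := by
    intro g g' π h1 h2 i h3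
    have h4 := hs ⟨th TT g g' π, hmem g g' π h1 h2 ⟨i, h3⟩⟩ g g' π h1 rfl p₀
    rw [← h4]
    exact h3 p₀
  refine ⟨fun g g' π => X₀ (th TT g g' π), fun g τ => X₀ (vn g τ), ?_, ?_, ?_⟩
  · intro g g' hgg
    refine ⟨?_, ?_⟩
    · rintro π ⟨hπ, hπi⟩ π₁ ⟨hπ₁, hπ₁i⟩ e
      have e1 : X₀ (th TT g g' π) = X₀ (th TT g g' π₁) := e
      rw [hX₀v _ (hmem g g' π hgg hπ hπi), hX₀v _ (hmem g g' π₁ hgg hπ₁ hπ₁i)] at e1
      have e2 := congrArg Subtype.val (hx1 e1)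
      exact th_inj TT (hne _ _ hgg) e2
    · intro π hπ i hi
      show st (X₀ (th TT g g' π)) = i
      rw [hX₀v _ (hmem g g' π hgg hπ ⟨i, hi⟩), hx2]
      exact hss g g' π hgg hπ i hi
  · intro g g' hgg τ hτ _
    refine ⟨?_, ?_⟩
    · show X₀ (th TT g g' (lfP τ)) = X₀ (vn g τ)
      rw [th_lf TT g g' hτ]
    · show X₀ (th TT g g' (rtP τ)) = X₀ (vn g' τ)
      rw [th_rt TT g g' hτ]
  · intro a g g' hgg
    -- the flag of names
    have hfl : ∀ w, FP st PS w ∧ (∀ i, w i ∈ S a) → ∃ u ∈ C (a, g, g'), g₀ u = val g g' w ∧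
        ∀ i, X₀ (th TT g g' (w i)) = x₀ (u.1 i) := by
      rintro w ⟨hw, hwS⟩
      have h1 : ∀ i, th TT g g' (w i) ∈ Ws := fun i =>
        hmem g g' (w i) hgg (hw i).1 ⟨i, (hw i).2⟩
      let u : Fl s := ⟨fun i => ⟨th TT g g' (w i), h1 i⟩, fun i =>
        hss g g' (w i) hgg (hw i).1 i (hw i).2⟩
      refine ⟨u, ⟨hgg, w, hw, hwS, fun i => rfl⟩, ?_, fun i => hX₀v _ (h1 i)⟩
      exact hg₀ u g g' w hgg hw fun i => rfl
    obtain ⟨ht1, ht2⟩ := hx3 (a, g, g')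
    refine ⟨?_, ?_⟩
    · intro w hw w₁ hw₁
      obtain ⟨u, hu, e1, e2⟩ := hfl w hw
      obtain ⟨u₁, hu₁, e3, e4⟩ := hfl w₁ hw₁
      have h1 := ht1 u hu u₁ hu₁
      show val g g' w = val g g' w₁ ↔
        β (fun i => X₀ (th TT g g' (w i))) = β (fun i => X₀ (th TT g g' (w₁ i)))
      rw [← e1, ← e3]
      simp_rw [e2, e4]
      exact h1
    · intro l z hz
      choose u hu e1 e2 using fun i => hfl (z i) (hz i)
      have h1 := ht2 l u hu
      show 𝔹 l (fun i => val g g' (z i)) ↔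
        𝔹 l (fun i => β (fun i' => X₀ (th TT g g' (z i i'))))
      simp_rw [← e1, e2]
      exact h1

end Pool.Agent.H65.CHN
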